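import Pool.Agent.H55.QE.BLK
import Pool.Agent.H76.PS.PSL

/-! # Quantum relaxations, width 3: assembly of the core inequality (helper55, after helper33) -/

set_option autoImplicit false

namespace Pool.Agent.H55.QE

open Matrix Finset H43.PS
open Pool.Agent.H1.LP (Clause viol Loc Sys supp ip kk)
open Pool.Agent.H96.KX (PDz S_FRM3)
open Pool.Agent.H70.UN (PosFam T_LASF)

theorem pf_CORE3E (hAB : S_ABS3) (hLA : T_LASF) (hPA : H96.KX.S_PDA)
    (hLO : Pool.Agent.H1.LP.S_LOC) (hFR : S_FRM3) : S_CORE3E := by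
  classical
  intro B R t q n ε T Ys hR ht hq hBn hT hA01 hfar
  have hfact : Fact (Nat.Prime 2) := ⟨Nat.prime_two⟩
  obtain ⟨S, hS⟩ := hLO 2 B R t (t / 3) Ys (by omega)
  have hsupp : ∀ i, supp (Ys.A i) ⊆ T i := by
    intro i j hj
    by_contra hne
    have h1 : Ys.A i j ≠ 0 := (mem_filter.1 hj).2
    rw [hA01, if_neg hne] at h1
    exact h1 rfl
  have hs3 : ∀ i, (supp (Ys.A i)).card ≤ 3 := fun i => (card_le_card (hsupp i)).trans (hT i).le
  have hrow : ∀ i, Ys.A i ∈ S.La ∧ S.ga (Ys.A i) = Ys.be i := by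
    intro i
    apply hS
    exact (hs3 i).trans (by omega)
  obtain ⟨asg, dec, C, fC, cl, inF, eq, F, phi, hda, hcC, hF, hcl, hphi, hsum, hviol, hlast⟩ :=
    hFR B R q n T Ys.A Ys.be hq hT hA01 hBn
  obtain ⟨Yc, hYc⟩ : ∃ Yc, Fintype.card (Fin B → Fin q) = Yc := ⟨_, rfl⟩
  have hYc' : Yc = q ^ B := by
    rw [← hYc, Fintype.card_fun, Fintype.card_fin, Fintype.card_fin]
  let e : Fin Yc ≃ (Fin B → Fin q) := (Fintype.equivFinOfCardEq hYc).symm
  have hY0 : 0 < Yc := by
    rw [hYc']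
    exact Nat.pow_pos (by omega)
  refine ⟨Yc, fun _ => 4 * R, fun a => phi (e a), hY0, ?_, ?_⟩
  · intro a
    refine ⟨?_, le_rfl, ?_, ?_⟩
    · show 1 ≤ 4 * R
      omega
    · intro c
      obtain ⟨c', hc'⟩ := hphi (e a) c
      show (phi (e a) c).card = 3 ∧ ((phi (e a) c).image Prod.fst).card = 3
      rw [hc']
      exact hcl c'
    · intro y
      rw [hviol (e a) y]
      refine le_trans (le_of_eq ?_) (hfar _)
      push_cast
      ring
  -- the inequality
  intro M E A de er S0 W p σ hde her hp1 hp2 hσ hcert hW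
  have hMW : (M : ℝ) ≤ W := (family_card E).trans hW
  have hW0 : 0 ≤ W := (Nat.cast_nonneg M).trans hMW
  have hres : ∀ b : Fin B → Fin q, ∃ (J : Finset (Fin M))
      (Lm : (ji : Σ j : Fin M, Fin (E j).nb) → Matrix (Fin ((E ji.1).ord ji.2 + (E ji.1).ord ji.2))
        (Fin ((E ji.1).ord ji.2 + (E ji.1).ord ji.2)) ℝ),
      (∀ ji, (Lm ji).PosSemidef) ∧ (b ∈ A.map e.toEmbedding →
      (∀ j ∈ J, ∀ j' ∈ J, j ≠ j' → Disjoint (E j).cell (E j').cell) ∧
      (∀ x, ∃ j ∈ J, x ∈ (E j).cell) ∧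
      ∀ j ∈ J, ∀ x ∈ (E j).cell, |∑ i, (E j).en (phi b i) x - de -
        ∑ i, (Lm ⟨j, i⟩ * rfd ((E j).st x i)).trace| ≤ er) := by
    intro b
    by_cases hb : b ∈ A.map e.toEmbedding
    · obtain ⟨a, ha, rfl⟩ := mem_map.1 hb
      obtain ⟨J, hJ1, hJ2, hJ3, hJ4⟩ := hcert a ha
      have hj : ∀ j : Fin M, ∃ L : (i : Fin (E j).nb) →
          Matrix (Fin ((E j).ord i + (E j).ord i)) (Fin ((E j).ord i + (E j).ord i)) ℝ,
          (∀ i, (L i).PosSemidef) ∧ (j ∈ J → ∀ x ∈ (E j).cell,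
            |∑ i, (E j).en (phi (e a) i) x - de - ∑ i, (L i * rfd ((E j).st x i)).trace| ≤ er) := by
        intro j
        by_cases h : j ∈ J
        · obtain ⟨L, h1, h2⟩ := cert_real (E j) (phi (e a)) de er (hJ3 j h)
          exact ⟨L, h1, fun _ => h2⟩
        · exact ⟨fun _ => 0, fun _ => PosSemidef.zero, fun h' => absurd h' h⟩
      choose L hL1 hL2 using hj
      exact ⟨J, fun ji => L ji.1 ji.2, fun ji => hL1 ji.1 ji.2,
        fun _ => ⟨hJ1, hJ2, fun j hj => hL2 j hj⟩⟩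
    · exact ⟨∅, fun _ => 0, fun _ => PosSemidef.zero, fun h => absurd h hb⟩
  choose J Lm hLm hJ using hres
  have hcell : ∀ b ∈ A.map e.toEmbedding, ∀ x, ∃ j₀ ∈ J b, x ∈ (E j₀).cell ∧
      ∀ j ∈ J b, x ∈ (E j).cell → j = j₀ := by
    intro b hb x
    obtain ⟨j₀, hj₀, hx⟩ := (hJ b hb).2.1 x
    refine ⟨j₀, hj₀, hx, fun j hj hxj => ?_⟩
    by_contra hne
    exact Finset.disjoint_left.1 ((hJ b hb).1 j hj j₀ hj₀ hne) hxj hx
  have hPD : PosDeg ((t / 3 - 3) / 2) (PDz S) :=
    posDeg_of_posFam (hLA 2 B _ S).1 (by omega)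
  have hD1 : av (PDz S) = 1 := by
    unfold av
    rw [(hPA 2 B _ S).2, Fintype.card_fun, ZMod.card, Fintype.card_fin]
    push_cast
    exact inv_mul_cancel₀ (by positivity)
  have key := hAB (ZMod 2) p σ hp1 hp2 hσ (by simp) B q ((t / 3 - 3) / 2) (by omega) (PDz S)
    (2 ^ B) (by
      intro z
      have := (hPA 2 B _ S).1 z
      exact_mod_cast this) hPD hD1
    (C × Fin M) (fun c z => ip (Ys.A (eq c.1)) z ≠ S.ga (Ys.A (eq c.1)))
    (fun c s => (cl c.1).Sat (asg s)) (fun b => (F b) ×ˢ (J b))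
    (by
      intro c
      have h1 := (hLA 2 B _ S).2 (Ys.A (eq c.1)) (hrow _).1 (t / 3 - 3) (by
        have := hs3 (eq c.1)
        omega)
      exact ⟨posDeg_of_posFam h1.1 (by omega), posDeg_of_posFam h1.2 (by omega)⟩)
    (by
      intro b c hc s hs
      have h1 := hlast b c.1 s ((hF b c.1).1 (mem_product.1 hc).1) hs
      show ip (Ys.A (eq c.1)) _ ≠ S.ga (Ys.A (eq c.1))
      rw [(hrow (eq c.1)).2]
      exact h1)
    (Σ ji : Σ j : Fin M, Fin (E j).nb, Fin ((E ji.1).ord ji.2 + (E ji.1).ord ji.2))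
    (A.map e.toEmbedding)
    (fun b => blockDiagonal' (fun ji => if ji.1 ∈ J b then Lm b ji else 0))
    (fun s => blockDiagonal' (fun ji => if asg s ∈ (E ji.1).cell then
      rfd ((E ji.1).st (asg s) ji.2) else 0))
    (fun c s => if asg s ∈ (E c.2).cell then (E c.2).en (cl c.1) (asg s) else 0) de er
    (by
      intro b hb
      apply blk_psd
      intro ji
      split_ifs
      · exact hLm b ji
      · exact PosSemidef.zero)
    (by
      intro s
      apply blk_psd
      intro ji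
      split_ifs with h
      · exact rfd_psd ((E ji.1).psd _ h _)
      · exact PosSemidef.zero)
    (by
      intro c s
      split_ifs with h
      · exact (E c.2).bdd _ h _
      · simp)
    (by
      intro c s hs
      split_ifs with h
      · exact (E c.2).sound _ h _ hs
      · exact le_rfl)
    hde (by linarith)
    (by
      intro b hb s
      obtain ⟨j₀, hj₀, hx, huniq⟩ := hcell b hb (asg s)
      have h1 := (hJ b hb).2.2 j₀ hj₀ (asg s) hx
      have h2 : ∑ c ∈ (F b) ×ˢ (J b), (if asg s ∈ (E c.2).cell then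
          (E c.2).en (cl c.1) (asg s) else 0) = ∑ i, (E j₀).en (phi b i) (asg s) := by
        rw [sum_product, hsum b (fun Cl => (E j₀).en Cl (asg s))]
        refine sum_congr rfl fun c _ => ?_
        rw [sum_eq_single_of_mem j₀ hj₀]
        · rw [if_pos hx]
        · intro j hj hne
          rw [if_neg]
          intro hxj
          exact hne (huniq j hj hxj)
      have h3 : ((blockDiagonal' (fun ji : Σ j : Fin M, Fin (E j).nb =>
          if ji.1 ∈ J b then Lm b ji else 0)) *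
          (blockDiagonal' (fun ji : Σ j : Fin M, Fin (E j).nb => if asg s ∈ (E ji.1).cell then
            rfd ((E ji.1).st (asg s) ji.2) else 0))).trace =
          ∑ i, (Lm b ⟨j₀, i⟩ * rfd ((E j₀).st (asg s) i)).trace := by
        rw [blk_tr, Fintype.sum_sigma]
        rw [sum_eq_single_of_mem j₀ (mem_univ _)]
        · refine sum_congr rfl fun i _ => ?_
          rw [if_pos hj₀, if_pos hx]
        · intro j _ hne
          apply sum_eq_zero
          intro i _
          by_cases hj : j ∈ J b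
          · rw [if_neg (fun hxj => hne (huniq j hj hxj)), Matrix.mul_zero, trace_zero]
          · rw [if_neg hj, Matrix.zero_mul, trace_zero]
      rw [h2, h3]
      exact h1)
  have hYR : (Yc : ℝ) = (q : ℝ) ^ B := by
    rw [hYc']
    push_cast
    rfl
  rw [card_map, ← hYR] at key
  refine key.trans ?_
  -- monotonicity
  have hc2 : (Fintype.card (ZMod 2) : ℝ) = 2 := by
    rw [ZMod.card]
    norm_num
  have hcard : ((Fintype.card (C × Fin M) : ℕ) : ℝ) ≤ R * (2 * q) ^ 3 * W := by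
    rw [Fintype.card_prod, Fintype.card_fin]
    push_cast
    have h1 : ((Fintype.card C : ℕ) : ℝ) ≤ R * (2 * q) ^ 3 := by exact_mod_cast hcC
    exact mul_le_mul h1 hMW (Nat.cast_nonneg M) (by positivity)
  have hcardι : ((Fintype.card (Σ ji : Σ j : Fin M, Fin (E j).nb,
      Fin ((E ji.1).ord ji.2 + (E ji.1).ord ji.2)) : ℕ) : ℝ) ≤ 2 * W := by
    rw [Fintype.card_sigma, Fintype.sum_sigma]
    push_cast
    have h1 : ∑ j, ∑ i, (((E j).ord i + (E j).ord i : ℕ) : ℝ) ≤ ∑ j, 2 * (E j).size :=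
      sum_le_sum fun j _ => ord_real (E j)
    rw [← mul_sum] at h1
    simp only [Fintype.card_fin]
    push_cast at h1 ⊢
    linarith
  have hp0 : 0 < p := by linarith
  rw [hc2]
  have hX := XX_mono3 (Q := 2) (q := (q : ℝ)) (p := p) (σ := σ) (N := B) (h := (t / 3 - 3) / 2)
    (r := ((Fintype.card (Σ ji : Σ j : Fin M, Fin (E j).nb,
      Fin ((E ji.1).ord ji.2 + (E ji.1).ord ji.2)) : ℕ) : ℝ) + 1) (r' := 2 * W + 1)
    (κ := 2 * (((Fintype.card (C × Fin M) : ℕ) : ℝ) + 1)) (κ' := 2 * (R * (2 * q) ^ 3 * W + 1))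
    (W := (((Fintype.card (Σ ji : Σ j : Fin M, Fin (E j).nb,
      Fin ((E ji.1).ord ji.2 + (E ji.1).ord ji.2)) : ℕ) : ℝ) + 1) ^ p) (W' := (2 * W + 1) ^ p)
    (by norm_num) (Nat.cast_nonneg q) hp1 (by linarith) (by positivity) (by linarith)
    (by positivity) (by linarith) (by positivity)
    (Real.rpow_le_rpow (by positivity) (by linarith) hp0.le)
  have hX0 := (H76.PS.XX_mono 2 q p σ (((Fintype.card (Σ ji : Σ j : Fin M, Fin (E j).nb,
      Fin ((E ji.1).ord ji.2 + (E ji.1).ord ji.2)) : ℕ) : ℝ) + 1)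
      (2 * (((Fintype.card (C × Fin M) : ℕ) : ℝ) + 1))
      ((((Fintype.card (Σ ji : Σ j : Fin M, Fin (E j).nb,
      Fin ((E ji.1).ord ji.2 + (E ji.1).ord ji.2)) : ℕ) : ℝ) + 1) ^ p)
      ((((Fintype.card (Σ ji : Σ j : Fin M, Fin (E j).nb,
      Fin ((E ji.1).ord ji.2 + (E ji.1).ord ji.2)) : ℕ) : ℝ) + 1) ^ p) B ((t / 3 - 3) / 2)
      (by norm_num) (Nat.cast_nonneg q) hp1 (by linarith) (by positivity) (by positivity)
      (by positivity) le_rfl).1
  refine mul_le_mul ?_ hX hX0 (by positivity)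
  apply mul_le_mul_of_nonneg_left _ (by positivity)
  apply pow_le_pow_left₀ (by positivity)
  linarith

end Pool.Agent.H55.QE
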