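import Pool.Agent.H55.QE.Targets

/-! # RFE: the real form of an encoding (helper55) -/

set_option autoImplicit false

namespace Pool.Agent.H55.QE

open Matrix Finset
open Pool.Agent.H1.LP (Clause viol)
open Pool.Agent.H55.QR (rf rf_mul rf_trace rf_psd)
open scoped ComplexOrder

/-- the real form of a complex matrix, of the double order -/
def rfd {d : ℕ} (X : Matrix (Fin d) (Fin d) ℂ) : Matrix (Fin (d + d)) (Fin (d + d)) ℝ :=
  (rf X).submatrix finSumFinEquiv.symm finSumFinEquiv.symm

theorem rfd_psd {d : ℕ} {X : Matrix (Fin d) (Fin d) ℂ} (h : X.PosSemidef) :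
    (rfd X).PosSemidef := (rf_psd h).submatrix _

theorem rfd_tr {d : ℕ} (X Y : Matrix (Fin d) (Fin d) ℂ) :
    (rfd X * rfd Y).trace = 2 * (X * Y).trace.re := by
  unfold rfd
  rw [Matrix.submatrix_mul_equiv, ← rf_mul, ← rf_trace]
  unfold Matrix.trace
  exact Equiv.sum_comp (finSumFinEquiv (m := d) (n := d)).symm (fun i => (rf (X * Y)).diag i)

theorem Encoding.one_le_size {n : ℕ} (E : Encoding n) : 1 ≤ E.size := by
  obtain ⟨x, hx⟩ := E.ne
  have h1 := E.tr x hx
  have h2 : ∃ i, E.ord i ≠ 0 := by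
    by_contra hcon
    push Not at hcon
    have h3 : ∑ i, (E.st x i).trace = 0 := by
      apply sum_eq_zero
      intro i _
      have : IsEmpty (Fin (E.ord i)) := by
        rw [hcon i]
        exact Fin.isEmpty
      exact Matrix.trace_eq_zero_of_isEmpty _
    rw [h3] at h1
    exact zero_ne_one h1
  obtain ⟨i, hi⟩ := h2
  have h4 : (1 : ℝ) ≤ (E.ord i : ℝ) ^ 2 := by
    have : (1 : ℝ) ≤ (E.ord i : ℝ) := by
      have : 1 ≤ E.ord i := Nat.one_le_iff_ne_zero.2 hi
      exact_mod_cast this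
    exact one_le_pow₀ this
  exact h4.trans (single_le_sum (f := fun i => (E.ord i : ℝ) ^ 2) (fun i _ => by positivity)
    (mem_univ i))

/-- the real form of a certificate -/
theorem cert_real {n m : ℕ} (E : Encoding n) (phi : Fin m → Clause n) (de er : ℝ)
    (h : E.Certifies phi de er) :
    ∃ L : (i : Fin E.nb) → Matrix (Fin (E.ord i + E.ord i)) (Fin (E.ord i + E.ord i)) ℝ,
      (∀ i, (L i).PosSemidef) ∧ ∀ x ∈ E.cell,
        |∑ j, E.en (phi j) x - de - ∑ i, (L i * rfd (E.st x i)).trace| ≤ er := by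
  obtain ⟨H, h1, h2⟩ := h
  refine ⟨fun i => (1 / 2 : ℝ) • rfd (H i - (de : ℂ) • 1), fun i => ?_, fun x hx => ?_⟩
  · exact (rfd_psd (h2 i)).smul (by norm_num)
  · have h3 : ∀ i, (((1 / 2 : ℝ) • rfd (H i - (de : ℂ) • (1 : Matrix _ _ ℂ))) *
        rfd (E.st x i)).trace = ((H i * E.st x i).trace - (de : ℂ) * (E.st x i).trace).re := by
      intro i
      rw [Matrix.smul_mul, trace_smul, rfd_tr, Matrix.sub_mul, trace_sub, Matrix.smul_mul,
        Matrix.one_mul, trace_smul]
      simp
    rw [sum_congr rfl fun i _ => h3 i, ← Complex.re_sum, sum_sub_distrib, ← mul_sum, E.tr x hx]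
    have h4 := h1 x hx
    have h5 := (Complex.abs_re_le_norm _).trans h4
    refine le_trans (le_of_eq ?_) h5
    rw [← abs_neg]
    congr 1
    simp only [Complex.sub_re, Complex.ofReal_re, mul_one]
    ring

theorem CertifiedBy.mono {n M m : ℕ} {E : Fin M → Encoding n} {phi : Fin m → Clause n}
    {de er S S' : ℝ} (h : CertifiedBy E phi de er S) (hS : S ≤ S') :
    CertifiedBy E phi de er S' := by
  obtain ⟨J, h1, h2, h3, h4⟩ := h
  exact ⟨J, h1, h2, h3, h4.trans hS⟩

theorem family_card {n M : ℕ} (E : Fin M → Encoding n) : (M : ℝ) ≤ ∑ j, (E j).size := by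
  have h : ∑ _j : Fin M, (1 : ℝ) ≤ ∑ j, (E j).size := sum_le_sum fun j _ => (E j).one_le_size
  rw [sum_const, card_univ, Fintype.card_fin, nsmul_eq_mul, mul_one] at h
  exact h

/-- the size of the real form of an encoding, for the abstract inequality -/
theorem size_real {n : ℕ} (E : Encoding n) :
    ∑ i, (((E.ord i + E.ord i : ℕ) : ℝ)) ^ 2 + 1 ≤ 5 * E.size := by
  have h1 := E.one_le_size
  have h2 : ∑ i, (((E.ord i + E.ord i : ℕ) : ℝ)) ^ 2 = 4 * E.size := by
    unfold Encoding.size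
    rw [mul_sum]
    refine sum_congr rfl fun i _ => ?_
    push_cast
    ring
  linarith

/-- the order of the real form of an encoding -/
theorem ord_real {n : ℕ} (E : Encoding n) :
    ∑ i, (((E.ord i + E.ord i : ℕ) : ℝ)) ≤ 2 * E.size := by
  unfold Encoding.size
  rw [mul_sum]
  refine sum_le_sum fun i _ => ?_
  have h1 : (E.ord i : ℝ) ≤ (E.ord i : ℝ) ^ 2 := by
    have : E.ord i ≤ E.ord i ^ 2 := Nat.le_self_pow (by norm_num) _
    exact_mod_cast this
  push_cast
  linarith

end Pool.Agent.H55.QE
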