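import Pool.Agent.H91.UV.COREU
import Pool.Agent.H55.QE.RFE

/-! # Quantum relaxations, wide clauses: assembly of the core inequality (helper55, after helper91) -/

set_option autoImplicit false

namespace Pool.Agent.H55.QE

open Finset Matrix
open Pool.Agent.H1.LP (Clause viol Loc Sys Agree supp ip kk)
open Pool.Agent.H96.KX (PDz prs)
open Pool.Agent.H91.AV (ip_cong)
open Pool.Agent.H91.UV (NC S_ABSU posFam_mono)
open Pool.Agent.H70.UN (PosFam ERR T_LASF)

theorem pf_COREE (hPA : H96.KX.S_PDA) (hAB : S_ABSU) (hNP : H96.KX.S_NPR)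
    (hFR : H96.KX.S_FRM) (hBL : H96.KX.S_BASEL)
    (hLO : Pool.Agent.H1.LP.S_LOC) (hEN : Pool.Agent.H1.LP.S_ENC)
    (hLA : T_LASF) : S_COREE := by
  classical
  intro E L n B hE hL hkB hBn
  have hkE : kk E = 2 * (4 * E + 1) * E ^ 2 := rfl
  have hkE1 : 1 ≤ kk E := by
    rw [hkE]
    have : 0 < 2 * (4 * E + 1) * E ^ 2 := by positivity
    omega
  have hkE2 : E ≤ kk E := by
    rw [hkE]
    nlinarith
  have hB0 : 0 < B := by omega
  obtain ⟨p, hp, hplt, hple, T, Ys, hT, hsupp, hz⟩ := hBL E B (by omega) (by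
    rw [← hkE]
    omega)
  have ht1 : 1 ≤ B / E := by
    rw [Nat.le_div_iff_mul_le (by omega)]
    omega
  have h8 : 16 * (B / E) ≤ B := by
    have h2 : E * (B / E) ≤ B := Nat.mul_div_le B E
    have h3 : 16 * (B / E) ≤ E * (B / E) := Nat.mul_le_mul_right _ hE
    omega
  obtain ⟨S, hS⟩ := hLO p B (4 * E * B) (B / E) (B - 8 * (B / E)) Ys ht1
  have hT' : ∀ i, (T i).card = kk E := hT
  have hrow : ∀ i, Ys.A i ∈ S.La ∧ S.ga (Ys.A i) = Ys.be i := by
    intro i
    apply hS
    calc (supp (Ys.A i)).card ≤ (T i).card := card_le_card (hsupp i)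
      _ = kk E := hT' i
      _ ≤ _ := by omega
  obtain ⟨b, hb⟩ : ∃ b, (4 * E + 1) * (L + 1) = b := ⟨_, rfl⟩
  have hNC : NC E L B = 4 * E * B * 2 ^ (b * kk E) := by
    unfold NC
    rw [hb]
  simp only [hb] at hBn ⊢
  obtain ⟨asg, dec, cl, hda, hsat, hcard⟩ := hEN n B b hBn
  have hpR : (p : ℝ) ≤ 2 ^ (4 * E + 1) := by exact_mod_cast hple
  have hpn0 : 0 < p := (Fact.out : p.Prime).pos
  have hNZ : NeZero p := ⟨hpn0.ne'⟩
  have hp0 : (0 : ℝ) < p := by exact_mod_cast hpn0
  have hp1 : (1 : ℝ) ≤ p := by exact_mod_cast (Fact.out : p.Prime).one_lt.le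
  -- the embedding of the block values
  obtain ⟨q0, hq0⟩ : ∃ q0 : ℕ, q0 = p ^ L := ⟨_, rfl⟩
  have hcV : Fintype.card (Fin q0) = p ^ L := by
    rw [Fintype.card_fin, hq0]
  have hcU : Fintype.card (ZMod p × (Fin q0)) = p ^ (L + 1) := by
    rw [Fintype.card_prod, hcV, ZMod.card, pow_succ, mul_comm]
  obtain ⟨Hn, hHn⟩ : ∃ Hn, Fintype.card ((Fin q0) → ZMod p) = Hn := ⟨_, rfl⟩
  have hHn0 : 0 < Hn := by
    rw [← hHn]
    exact Fintype.card_pos
  obtain ⟨io⟩ : Nonempty ((ZMod p × (Fin q0)) ↪ (Fin b → Bool)) := by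
    apply Function.Embedding.nonempty_of_card_le
    rw [hcU, Fintype.card_fun, Fintype.card_bool, Fintype.card_fin, ← hb, pow_mul]
    exact Nat.pow_le_pow_left hple _
  set al : (Fin B → (Fin q0) → ZMod p) → Fin B → (Fin b → Bool) → ZMod p := fun a j q =>
    Function.extend io (Pool.Agent.H91.AV.hs p (Fin q0) (a j)) (fun _ => 0) q with hal
  have hal' : ∀ a j u, al a j (io u) = Pool.Agent.H91.AV.hs p (Fin q0) (a j) u := by
    intro a j u
    exact io.injective.extend_apply _ _ _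
  have hform := fun a : Fin B → (Fin q0) → ZMod p =>
    hFR p B (4 * E * B) b n T Ys.A Ys.be (al a) dec cl hsupp hsat
  choose m phi hm hphi hsum hviol using hform
  have hprs : (prs (b := b) T).card = 4 * E * B * 2 ^ (b * kk E) := hNP B (4 * E * B) b (kk E) T hT'
  have hvlow : ∀ a y, (4 * E - 3) * B ≤ viol (phi a) y := by
    intro a y
    rw [hviol a y]
    exact hz _
  have hvm : ∀ a y, viol (phi a) y ≤ m a := by
    intro a y
    unfold viol
    refine (card_le_univ _).trans ?_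
    rw [Fintype.card_fin]
  have hm1 : ∀ a, 1 ≤ m a := by
    intro a
    have := (hvlow a (fun _ => false)).trans (hvm a _)
    have h4 : 1 ≤ (4 * E - 3) * B := Nat.mul_pos (by omega) hB0
    omega
  have hm2 : ∀ a, m a ≤ 4 * E * B * 2 ^ (b * kk E) := by
    intro a
    rw [← hprs]
    exact hm a
  obtain ⟨Yc, hYc⟩ : ∃ Yc, Fintype.card (Fin B → (Fin q0) → ZMod p) = Yc := ⟨_, rfl⟩
  have hYc' : Yc = Hn ^ B := by
    rw [← hYc, Fintype.card_fun (α := Fin B), hHn, Fintype.card_fin]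
  let e : Fin Yc ≃ (Fin B → (Fin q0) → ZMod p) :=
    (Fintype.equivFinOfCardEq hYc).symm
  refine ⟨Yc, fun a => m (e a), fun a => phi (e a), p, ?_, hplt, hple, ?_, ?_⟩
  · rw [hYc']
    positivity
  · intro a
    refine ⟨hm1 _, by
        rw [hNC]
        exact hm2 _, ?_, ?_⟩
    · intro c
      obtain ⟨q, -, hq⟩ := hphi (e a) c
      show (phi (e a) c).card = b * kk E ∧ ((phi (e a) c).image Prod.fst).card = b * kk E
      rw [hq]
      have := hcard (T q.1) q.2
      rw [hT' q.1] at this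
      rw [mul_comm (kk E)] at this
      exact this
    · intro y
      have h5 : ((m (e a) : ℝ) / 2 ^ (b * kk E)) ≤ 4 * E * B := by
        rw [div_le_iff₀ (by positivity)]
        exact_mod_cast hm2 (e a)
      have hE1 : (0 : ℝ) < E := by
        have : 0 < E := by omega
        exact_mod_cast this
      have h6 : (0 : ℝ) ≤ 1 - 1 / (E : ℝ) := by
        have : 1 / (E : ℝ) ≤ 1 := by
          rw [div_le_one hE1]
          have : 1 ≤ E := by omega
          exact_mod_cast this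
        linarith
      calc (1 - 1 / (E : ℝ)) * ((m (e a) : ℝ) / 2 ^ (b * kk E))
          ≤ (1 - 1 / (E : ℝ)) * (4 * E * B) := by gcongr
        _ = (4 * E - 4) * B := by field_simp
        _ ≤ (4 * E - 3) * B := by
            have : (0 : ℝ) ≤ B := Nat.cast_nonneg B
            nlinarith
        _ = (((4 * E - 3) * B : ℕ) : ℝ) := by
            rw [Nat.cast_mul, Nat.cast_sub (by omega)]
            push_cast
            ring
        _ ≤ _ := by exact_mod_cast hvlow (e a) y
  -- the inequality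
  intro M P A de er S0 W K LAM t hde her hK hLAM ht1' ht2 hA hPW
  set A' : Finset (Fin B → (Fin q0) → ZMod p) := A.map e.toEmbedding with hA'
  have hA'c : A'.card = A.card := card_map _
  have hA'm : ∀ a ∈ A', CertifiedBy P (phi a) de er S0 := by
    intro a ha
    obtain ⟨i, hi, rfl⟩ := mem_map.1 ha
    exact hA i hi
  -- the data of the abstract inequality
  let X := (Fin B → ZMod p) × (Fin B → Fin q0)
  let C := {q // q ∈ prs (b := b) T}
  let pt : X → (Fin n → Bool) := fun x => asg (fun j => io (x.1 j, x.2 j))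
  have hptd : ∀ x : X, dec (pt x) = fun j => io (x.1 j, x.2 j) := fun x => hda _
  let inF : (Fin B → (Fin q0) → ZMod p) → C → Prop := fun a c =>
    ip (Ys.A c.1.1) (H1.LP.val (al a) c.1.2) ≠ Ys.be c.1.1
  let sat : C → X → Prop := fun c x => (cl (T c.1.1) c.1.2).Sat (pt x)
  have hq1 : 1 < q0 := by
    rw [hq0]
    exact Nat.one_lt_pow (by omega) (Fact.out : p.Prime).one_lt
  have hMx1 : (1 : ℝ) ≤ (p : ℝ) ^ B := one_le_pow₀ hp1
  have hres : ∀ a ∈ A', ∃ J : Finset (Fin M),
      (∀ j ∈ J, ∀ j' ∈ J, j ≠ j' → Disjoint (P j).cell (P j').cell) ∧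
      (∀ x, ∃ j ∈ J, x ∈ (P j).cell) ∧ (∀ j ∈ J, (P j).Certifies (phi a) de er) ∧
      ∑ j ∈ J, (P j).size ≤ S0 := hA'm
  choose! J hJ1 hJ2 hJ3 hJ4 using hres
  have her' : er ≤ de / (4 * (p : ℝ) ^ B) := by
    rw [le_div_iff₀ (by positivity)]
    linarith
  have hlp : ∀ (a : Fin B → (Fin q0) → ZMod p) (j : Fin M),
      ∃ (Lm : (i : Fin (P j).nb) → Matrix (Fin ((P j).ord i + (P j).ord i))
        (Fin ((P j).ord i + (P j).ord i)) ℝ) (lam0 : ℝ),
      0 ≤ lam0 ∧ (∀ i, (Lm i).PosSemidef) ∧ (a ∈ A' → j ∈ J a → ∀ x ∈ (P j).cell,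
        |∑ i, (P j).en (phi a i) x - de -
          (lam0 + ∑ i, (Lm i * rfd ((P j).st x i)).trace)| ≤ de / (4 * (p : ℝ) ^ B)) := by
    intro a j
    by_cases h : a ∈ A' ∧ j ∈ J a
    · obtain ⟨Lm, h1, h2⟩ := cert_real (P j) (phi a) de er (hJ3 a h.1 j h.2)
      refine ⟨Lm, 0, le_rfl, h1, fun _ _ x hx => ?_⟩
      rw [zero_add]
      exact (h2 x hx).trans her'
    · refine ⟨fun _ => 0, 0, le_rfl, fun _ => Matrix.PosSemidef.zero, ?_⟩
      intro ha hj x hx
      exact absurd ⟨ha, hj⟩ h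
  choose Lm lam0 hl0 hlm hl2 using hlp
  have hcYt : ((Fintype.card (Fin B → (Fin q0) → ZMod p) : ℕ) : ℝ) = Yc := by rw [hYc]
  have hdkk : B - 8 * (B / E) - kk E ≤ B - 8 * (B / E) := Nat.sub_le _ _
  have key := hAB (ZMod p) t ht1' ht2 B q0 (B - 8 * (B / E) - kk E) hq1 (by omega) (PDz S)
    ((p : ℝ) ^ B) hMx1 (hPA p B _ S).1 (posFam_mono hdkk (hLA p B _ S).1) (by
      rw [(hPA p B _ S).2, ZMod.card])
    C (fun c z => ip (Ys.A c.1.1) z ≠ S.ga (Ys.A c.1.1)) inF sat
    (by
      intro c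
      have h1 := (hLA p B _ S).2 (Ys.A c.1.1) (hrow _).1 (B - 8 * (B / E) - kk E) (by
        have : (supp (Ys.A c.1.1)).card ≤ kk E := (card_le_card (hsupp _)).trans (hT' _).le
        omega)
      exact h1)
    (by
      intro a c x ha hx
      have h3 : Agree (T c.1.1) (fun j => io (x.1 j, x.2 j)) c.1.2 := by
        have h4 : ¬ (cl (T c.1.1) c.1.2).Sat (pt x) := hx
        rw [hsat, not_not, hptd] at h4
        exact h4
      show ip (Ys.A c.1.1) _ ≠ S.ga (Ys.A c.1.1)
      rw [(hrow c.1.1).2]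
      intro h5
      apply ha
      rw [← h5]
      apply ip_cong _ _ (hsupp _)
      intro j hj
      show al a j (c.1.2 j) = _
      rw [← h3 j hj, hal']
      rfl)
    M A' J (fun j => {x : X | pt x ∈ (P j).cell}) (fun j => (P j).nb)
    (fun j i => (P j).ord i + (P j).ord i)
    (fun j x i => rfd ((P j).st (pt x) i)) Lm lam0
    (fun j c x => (P j).en (cl (T c.1.1) c.1.2) (pt x))
    (fun a => univ.filter (inF a)) de (5 * S0) (5 * W) K LAM hde hK hLAM
    (by
      intro a c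
      rw [mem_filter]
      exact ⟨fun h => h.2, fun h => ⟨mem_univ _, h⟩⟩)
    (by
      intro a ha x
      obtain ⟨j, hj, hx⟩ := hJ2 a ha (pt x)
      exact ⟨j, hj, hx⟩)
    (by
      intro a ha j hj j' hj' hne
      rw [Set.disjoint_left]
      intro x hx hx'
      exact (Finset.disjoint_left.1 (hJ1 a ha j hj j' hj' hne)) hx hx')
    (by
      intro j x hx i
      exact rfd_psd ((P j).psd (pt x) hx i))
    (fun a j i => hlm a j i)
    (fun a j => hl0 a j)
    (by
      intro j c x hx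
      exact (P j).bdd (pt x) hx _)
    (by
      intro j c x hx hs
      exact (P j).sound (pt x) hx _ hs)
    (by
      intro a ha j hj x hx
      have h1 := hl2 a j ha hj (pt x) hx
      rw [hsum a (fun Cl => (P j).en Cl (pt x))] at h1
      have h2 : ∑ c ∈ univ.filter (inF a), (P j).en (cl (T c.1.1) c.1.2) (pt x) =
          ∑ q ∈ (prs (b := b) T).filter (fun q => ip (Ys.A q.1) (H1.LP.val (al a) q.2) ≠
            Ys.be q.1), (P j).en (cl (T q.1) q.2) (pt x) := by
        rw [Finset.sum_filter, Finset.sum_filter]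
        exact Finset.sum_coe_sort (prs (b := b) T)
          (fun q : Fin (4 * E * B) × (Fin B → Fin b → Bool)
          => if ip (Ys.A q.1) (H1.LP.val (al a) q.2) ≠ Ys.be q.1 then
            (P j).en (cl (T q.1) q.2) (pt x) else 0)
      rw [h2]
      exact h1)
    (by
      intro a ha
      have h1 := hJ4 a ha
      have h2 : ∑ j ∈ J a, (∑ i, (((P j).ord i + (P j).ord i : ℕ) : ℝ) ^ 2 + 1) ≤
          ∑ j ∈ J a, 5 * (P j).size := sum_le_sum fun j _ => size_real (P j)
      rw [← mul_sum] at h2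
      linarith)
    (by
      have h2 : ∑ j, (∑ i, (((P j).ord i + (P j).ord i : ℕ) : ℝ) ^ 2 + 1) ≤
          ∑ j, 5 * (P j).size := sum_le_sum fun j _ => size_real (P j)
      rw [← mul_sum] at h2
      linarith)
  -- cleaning up
  have hcC : ((Fintype.card C : ℕ) : ℝ) = NC E L B := by
    show ((Fintype.card {q // q ∈ prs (b := b) T} : ℕ) : ℝ) = _
    rw [Fintype.card_coe, hprs, hNC]
  rw [hcC, hcYt, hA'c, ZMod.card, hq0] at key
  exact key

end Pool.Agent.H55.QE
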