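import Pool.Agent.H91.UV.Final
import Pool.Agent.H43.PS.AllB
import Pool.Agent.H55.QE.COREE
import Pool.Agent.H55.QE.CORE3E
import Pool.Agent.H98.QE.PADE
import Pool.Agent.H34.QE.LIME
import Pool.Agent.H41.QE.ABS3
import Pool.Agent.H16.QE.NUM3
import Pool.Agent.H67.QE.FIN3E
import Pool.Agent.H67.QE.FINE
import Pool.Agent.H11.KX.X3
import Pool.Agent.H77.KX.EXP3
import Pool.Agent.H49.KX3.RHS3
import Pool.Agent.H39.KX.FRM3

/-! # Quantum relaxations with classical and quantum memory: the theorem (MP_0f8dca_lc, helper55) -/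

set_option autoImplicit false

namespace Pool.Agent.H55.QE

open Pool.Agent.H91.UV (famlas parmu')

/-- the core inequality for wide clauses -/
theorem coree : S_COREE :=
  pf_COREE H39.KX.pf_PDA (H54.UV.pf_ABSU famlas.1) H58.KX.pf_NPR H58.KX.pf_FRM H96.KX.basel
    H2.LP.loc H88.LP.enc famlas.2

/-- width 3 -/
theorem fin3e : S_FIN3E :=
  H67.QE.pf_FIN3E (pf_CORE3E (H41.QE.pf_ABS3 H43.PS.All.sdp H43.PS.All.nrm H43.PS.All.trp)
    famlas.2 H39.KX.pf_PDA H2.LP.loc H39.KX.pf_FRM3) H16.QE.pf_NUM3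
    (H11.KX.pf_X3 H77.KX.pf_EXP3 H49.KX3.pf_RHS3)

/-- the large width case -/
theorem statementEW : StatementEW := H67.QE.pf_FINE coree parmu'

/-- Quantum relaxations of k-SAT with classical and quantum memory -/
theorem statementE : StatementE := H34.QE.pf_LIME H98.QE.pf_PADE statementEW fin3e

end Pool.Agent.H55.QE
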