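import Pool.Agent.H55.QE.RFE

/-! # Block diagonal matrices, degrees and families, monotonicity of the error (helper55) -/

set_option autoImplicit false

namespace Pool.Agent.H55.QE

open Matrix Finset H43.PS
open scoped MatrixOrder
open Pool.Agent.H70.UN (PosFam)

theorem blk_psd {o : Type} [Fintype o] [DecidableEq o] {d : o → ℕ}
    {X : (i : o) → Matrix (Fin (d i)) (Fin (d i)) ℝ} (h : ∀ i, (X i).PosSemidef) :
    (blockDiagonal' X).PosSemidef := by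
  have h1 : ∀ i, ∃ Y : Matrix (Fin (d i)) (Fin (d i)) ℝ, Yᴴ * Y = X i := fun i =>
    ⟨CFC.sqrt (X i), by
      rw [(CFC.sqrt_nonneg (X i)).posSemidef.isHermitian.eq]
      exact CFC.sqrt_mul_sqrt_self (X i) (h i).nonneg⟩
  choose Y hY using h1
  have h2 : blockDiagonal' X = (blockDiagonal' Y)ᴴ * blockDiagonal' Y := by
    rw [blockDiagonal'_conjTranspose, ← blockDiagonal'_mul]
    congr 1
    funext i
    exact (hY i).symm
  rw [h2]
  exact Matrix.posSemidef_conjTranspose_mul_self _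

theorem blk_tr {o : Type} [Fintype o] [DecidableEq o] {d : o → ℕ}
    (X Y : (i : o) → Matrix (Fin (d i)) (Fin (d i)) ℝ) :
    (blockDiagonal' X * blockDiagonal' Y).trace = ∑ i, (X i * Y i).trace := by
  rw [← blockDiagonal'_mul, trace_blockDiagonal']

theorem posDeg_of_posFam {Θ : Type} [Fintype Θ] {N d h : ℕ} {D : (Fin N → Θ) → ℝ}
    (hD : PosFam d D) (hh : 2 * h ≤ d) : PosDeg h D := by
  intro f hf
  obtain ⟨F, hF, hfF⟩ := hf
  have h1 := hD (univ.filter (fun T : Finset (Fin N) => T.card ≤ h)) (by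
    intro T hT T' hT'
    have h2 := (mem_filter.1 hT).2
    have h3 := (mem_filter.1 hT').2
    have h4 := card_union_le T T'
    omega) F (fun T _ z z' hz => hF T z z' hz)
  refine h1.trans (le_of_eq (sum_congr rfl fun z _ => ?_))
  rw [hfF z]

theorem XX_mono3 {Q q p σ r r' κ κ' W W' : ℝ} {N h : ℕ} (hQ : 0 ≤ Q) (hq : 0 ≤ q) (hp : 1 < p)
    (hσ : 0 ≤ σ) (hr : 0 ≤ r) (hrr : r ≤ r') (hκ : 0 ≤ κ) (hκκ : κ ≤ κ') (hW : 0 ≤ W)
    (hWW : W ≤ W') : XX Q q p σ r κ W N h ≤ XX Q q p σ r' κ' W' N h := by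
  have hp1 : 0 < p - 1 := by linarith
  have hp0 : 0 < p := by linarith
  have hK : 0 ≤ KK Q q p σ := by
    unfold KK
    have : 0 ≤ Q / ((p - 1) * q) := div_nonneg hQ (mul_nonneg hp1.le hq)
    positivity
  have he1 : 0 ≤ 1 - 1 / p := by
    rw [sub_nonneg, div_le_one hp0]
    exact hp.le
  have he2 : 0 ≤ 1 / p := by positivity
  have h1 : (r * (Q + 1) ^ N) ^ (1 - 1 / p) ≤ (r' * (Q + 1) ^ N) ^ (1 - 1 / p) :=
    Real.rpow_le_rpow (by positivity) (mul_le_mul_of_nonneg_right hrr (by positivity)) he1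
  have h2 : (KK Q q p σ ^ N * W) ^ (1 / p) ≤ (KK Q q p σ ^ N * W') ^ (1 / p) :=
    Real.rpow_le_rpow (by positivity) (mul_le_mul_of_nonneg_left hWW (by positivity)) he2
  have h3 : 0 ≤ (r * (Q + 1) ^ N) ^ (1 - 1 / p) := Real.rpow_nonneg (by positivity) _
  have h4 : 0 ≤ (KK Q q p σ ^ N * W) ^ (1 / p) := Real.rpow_nonneg (by positivity) _
  have h5 : 0 ≤ (r' * (Q + 1) ^ N) ^ (1 - 1 / p) := h3.trans h1
  have hs : 0 ≤ 2 ^ N * (σ⁻¹) ^ (2 * (h + 1)) := by positivity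
  unfold XX
  have h6 : (r * (Q + 1) ^ N) ^ (1 - 1 / p) * (KK Q q p σ ^ N * W) ^ (1 / p) ≤
      (r' * (Q + 1) ^ N) ^ (1 - 1 / p) * (KK Q q p σ ^ N * W') ^ (1 / p) :=
    mul_le_mul h1 h2 h4 h5
  have h7 : 2 ^ N * (σ⁻¹) ^ (2 * (h + 1)) * κ ≤ 2 ^ N * (σ⁻¹) ^ (2 * (h + 1)) * κ' :=
    mul_le_mul_of_nonneg_left hκκ hs
  exact mul_le_mul h7 h6 (mul_nonneg h3 h4) (mul_nonneg hs (hκ.trans hκκ))

end Pool.Agent.H55.QE
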