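import Pool.Agent.H91.UV.TargetsB
import Pool.Agent.H55.QR.RED
import Pool.Agent.H55.QE.Stmt

/-!
# Quantum relaxations of k-SAT with classical and quantum memory: targets (MP_0f8dca_lc, helper55)
-/

set_option autoImplicit false

namespace Pool.Agent.H55.QE

open Matrix Finset H43.PS
open Pool.Agent.H1.LP (Clause viol Loc Sys supp ip kk)
open Pool.Agent.H91.UV (NC S_PARMU S_ABSU)
open Pool.Agent.H70.UN (ERR)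

/-- ABS3: index vectors as formulas, tables as points, one psd block, losses of clauses.
`T_SDP → T_NRM → T_TRP → S_ABS3` -/
def S_ABS3 : Prop :=
  ∀ (Θ : Type) [Fintype Θ] [DecidableEq Θ] (p σ : ℝ), 1 < p → p < 3 / 2 → 1 ≤ σ →
  0 < Fintype.card Θ → ∀ (N q h : ℕ), 0 < q → ∀ (D : (Fin N → Θ) → ℝ) (M : ℝ),
  (∀ z, |D z| ≤ M) → PosDeg h D → av D = 1 →
  ∀ (C : Type) [Fintype C] [DecidableEq C] (V : C → (Fin N → Θ) → Prop) [∀ c, DecidablePred (V c)]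
    (sat : C → (Fin N → Fin q → Θ) → Prop) (F : (Fin N → Fin q) → Finset C),
  (∀ c, PosDeg h (fun z => if V c z then D z else 0) ∧
    PosDeg h (fun z => if V c z then - D z else 0)) →
  (∀ b, ∀ c ∈ F b, ∀ t, ¬ sat c t → V c (fun i => t i (b i))) →
  ∀ (ι : Type) [Fintype ι] [DecidableEq ι] (A : Finset (Fin N → Fin q))
    (L : (Fin N → Fin q) → Matrix ι ι ℝ) (S : (Fin N → Fin q → Θ) → Matrix ι ι ℝ)
    (ls : C → (Fin N → Fin q → Θ) → ℝ) (δ η : ℝ),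
  (∀ b ∈ A, (L b).PosSemidef) → (∀ t, (S t).PosSemidef) → (∀ c t, |ls c t| ≤ 1) →
  (∀ c t, sat c t → ls c t ≤ 0) → 0 < δ → 4 * M * η ≤ δ →
  (∀ b ∈ A, ∀ t, |∑ c ∈ F b, ls c t - δ - (L b * S t).trace| ≤ η) →
  δ ^ 2 * ((A.card : ℝ) / (q : ℝ) ^ N) ≤ 96 * M ^ 2 * ((Fintype.card C : ℝ) + 1) ^ 2 *
    XX (Fintype.card Θ) q p σ ((Fintype.card ι : ℝ) + 1) (2 * ((Fintype.card C : ℝ) + 1))
      (((Fintype.card ι : ℝ) + 1) ^ p) N h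

/-- NUM3: the numbers for a constant alphabet -/
def S_NUM3 : Prop := ∀ κ : ℝ, 0 < κ → ∃ (q : ℕ) (σ : ℝ), 2 ≤ q ∧ 1 ≤ σ ∧ ∀ (N h : ℕ), 1 ≤ N →
  κ * N ≤ h + 1 → ∀ r m δ μ : ℝ, 1 ≤ r → r ≤ 2 ^ N → 1 ≤ m → m ≤ 2 ^ N → 0 < δ →
  6 * m ≤ δ ^ 2 * 4 ^ N → 0 ≤ μ →
  δ ^ 2 * μ ≤ 96 * ((2 : ℝ) ^ N) ^ 2 * m ^ 2 * XX 2 q (5 / 4) σ r (2 * m) (r ^ (5 / 4 : ℝ)) N h →
  μ ≤ ((2 : ℝ) ^ N)⁻¹

/-- CORE3E: `S_ABS3 → T_LASF → S_LOC → S_FRM3 → S_CORE3E` -/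
def S_CORE3E : Prop :=
  ∀ (B R t q n : ℕ) (ε : ℝ) (T : Fin R → Finset (Fin B)) (Ys : Sys 2 B R t (t / 3)),
  1 ≤ R → 9 ≤ t → 1 ≤ q → B * q ≤ n → (∀ i, (T i).card = 3) →
  (∀ i j, Ys.A i j = if j ∈ T i then 1 else 0) →
  (∀ z : Fin B → ZMod 2, (1 - ε) * ((R : ℝ) / 2) ≤
    ((univ.filter (fun i => ip (Ys.A i) z ≠ Ys.be i)).card : ℝ)) →
  ∃ (Y : ℕ) (m : Fin Y → ℕ) (phi : (a : Fin Y) → Fin (m a) → Clause n), 0 < Y ∧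
    (∀ a, 1 ≤ m a ∧ m a ≤ 4 * R ∧
      (∀ i, (phi a i).card = 3 ∧ ((phi a i).image Prod.fst).card = 3) ∧
      ∀ x, (1 - ε) * ((m a : ℝ) / 2 ^ 3) ≤ (viol (phi a) x : ℝ)) ∧
    ∀ (M : ℕ) (E : Fin M → Encoding n) (A : Finset (Fin Y)) (de er S W p σ : ℝ), 0 < de →
      4 * 2 ^ B * er ≤ de → 1 < p → p < 3 / 2 → 1 ≤ σ →
      (∀ a ∈ A, CertifiedBy E (phi a) de er S) → ∑ j, (E j).size ≤ W →
      de ^ 2 * ((A.card : ℝ) / Y) ≤ 96 * ((2 : ℝ) ^ B) ^ 2 * (R * (2 * q) ^ 3 * W + 1) ^ 2 *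
        XX 2 q p σ (2 * W + 1) (2 * (R * (2 * q) ^ 3 * W + 1)) ((2 * W + 1) ^ p) B
          ((t / 3 - 3) / 2)

/-- FIN3E: `S_CORE3E → S_NUM3 → S_X3 → S_FIN3E` -/
def S_FIN3E : Prop := ∀ ε : ℝ, 0 < ε → ∃ c : ℝ, 0 < c ∧ HardE 3 ε c c

/-- COREE: `S_ABSU → T_LASF → .. → S_COREE`, tables as formulas -/
def S_COREE : Prop :=
  ∀ (E L n B : ℕ), 16 ≤ E → 1 ≤ L → 2 * kk E ≤ B → B * ((4 * E + 1) * (L + 1)) ≤ n →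
    ∃ (Y : ℕ) (m : Fin Y → ℕ) (phi : (a : Fin Y) → Fin (m a) → Clause n) (p : ℕ), 0 < Y ∧
      2 ^ (4 * E) < p ∧ p ≤ 2 ^ (4 * E + 1) ∧
      (∀ a, 1 ≤ m a ∧ m a ≤ NC E L B ∧
        (∀ i, (phi a i).card = (4 * E + 1) * (L + 1) * kk E ∧
          ((phi a i).image Prod.fst).card = (4 * E + 1) * (L + 1) * kk E) ∧
        ∀ x, (1 - 1 / (E : ℝ)) * ((m a : ℝ) / 2 ^ ((4 * E + 1) * (L + 1) * kk E)) ≤
          (viol (phi a) x : ℝ)) ∧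
      ∀ (M : ℕ) (P : Fin M → Encoding n) (A : Finset (Fin Y)) (de er S W K LAM t : ℝ), 0 < de →
        4 * (p : ℝ) ^ B * er ≤ de → 1 ≤ K → 1 ≤ LAM → 1 < t → t < 3 / 2 →
        (∀ a ∈ A, CertifiedBy P (phi a) de er S) → ∑ j, (P j).size ≤ W →
        de ≤ 11 * (NC E L B + 1) * (p : ℝ) ^ B * (2 * NC E L B + 1) *
          ERR p t K LAM ((3 * NC E L B + 1) * (5 * S)) B (B - 8 * (B / E) - kk E) (p ^ L) ∨
        (A.card : ℝ) * LAM ≤ 2 * (3 * NC E L B + 1) * (5 * W) * Y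

/-- the large width case; FINE: `S_COREE → S_PARMU → StatementEW` -/
def StatementEW : Prop := ∀ C ε : ℝ, 0 < ε → ∃ k : ℕ, HardE k ε (1 - ε) C

/-- PADE: padding of the clauses -/
def S_PADE : Prop := ∀ (w k : ℕ) (ε c c' C C' : ℝ), w ≤ k → c' < c → C' < C →
  HardE w ε c C → HardE k ε c' C'

/-- LIME: `S_PADE → S_LIME` -/
def S_LIME : Prop := StatementEW → S_FIN3E → StatementE

end Pool.Agent.H55.QE
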